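import Pool.Agent.Work.MP_0fc146_gt_98.Line

/-!
# Block CODE of MP_0fc146_gt: the intervals of the states are covered by the images of the roles
-/

noncomputable section

open scoped Topology
open Filter

namespace Pool.Agent.CircleShift

namespace CodeAux

theorem z3_sub (x y : ℤ × ℤ) : z3 (x.1 - y.1, x.2 - y.2) = z3 x - z3 y := by
  unfold z3; push_cast; ring

theorem z3_le {x y : ℤ × ℤ} (h : nn (y.1 - x.1, y.2 - x.2) = true) : z3 x ≤ z3 y := by
  have h1 := nn_spec h
  rw [z3_sub] at h1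
  linarith

/-- Twice the left end point of the image of a role. -/
def eA (r : Fin 13) : ℤ × ℤ :=
  ((dl (endTab (roleSrc r))).1 + 2 * (roleB r).1, (dl (endTab (roleSrc r))).2 + 2 * (roleB r).2)

/-- Twice the right end point of the image of a role. -/
def eB (r : Fin 13) : ℤ × ℤ :=
  ((dl ((endTab (roleSrc r)).1 + 2, (endTab (roleSrc r)).2)).1 + 2 * (roleB r).1,
    (dl ((endTab (roleSrc r)).1 + 2, (endTab (roleSrc r)).2)).2 + 2 * (roleB r).2)

theorem A_eq (r : Fin 13) : roleMap r (lft (roleSrc r)) = z3 (eA r) / 2 := by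
  have h2 : z3 (eA r) = z3 (dl (endTab (roleSrc r))) + 2 * z3 (roleB r) := by
    unfold eA z3; push_cast; ring
  rw [h2, z3_dl]
  unfold roleMap roleT lft
  ring

theorem B_eq (r : Fin 13) : roleMap r (lft (roleSrc r) + 1) = z3 (eB r) / 2 := by
  have h2 : z3 (eB r) = z3 (dl ((endTab (roleSrc r)).1 + 2, (endTab (roleSrc r)).2)) +
      2 * z3 (roleB r) := by
    unfold eB z3; push_cast; ring
  have h4 : z3 ((endTab (roleSrc r)).1 + 2, (endTab (roleSrc r)).2) =
      2 * (z3 (endTab (roleSrc r)) / 2 + 1) := by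
    unfold z3; push_cast; ring
  rw [h2, z3_dl, h4]
  unfold roleMap roleT lft
  ring

theorem cover (r : Fin 13) {s : ℝ} (h1 : z3 (eA r) / 2 ≤ s) (h2 : s ≤ z3 (eB r) / 2) :
    ∃ s' ∈ K (roleSrc r), roleMap r s' = s := by
  rw [← A_eq] at h1
  rw [← B_eq] at h2
  have hl := lam_pos
  have key : roleMap r ((s - roleT r) * lam) = s := by
    unfold roleMap
    rw [mul_div_assoc, div_self hl.ne']
    ring
  refine ⟨(s - roleT r) * lam, ⟨?_, ?_⟩, key⟩
  · by_contra hc
    push Not at hc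
    have h3 := div_lt_div_of_pos_right hc hl
    have h4 : roleMap r ((s - roleT r) * lam) < roleMap r (lft (roleSrc r)) := by
      unfold roleMap; linarith
    linarith
  · by_contra hc
    push Not at hc
    have h3 := div_lt_div_of_pos_right hc hl
    have h4 : roleMap r (lft (roleSrc r) + 1) < roleMap r ((s - roleT r) * lam) := by
      unfold roleMap; linarith
    linarith

theorem coverK0 {s : ℝ} (h : s ∈ K 0) :
    ∃ r : Fin 13, r.val < 12 ∧ roleTgt r = 0 ∧ ∃ s' ∈ K (roleSrc r), roleMap r s' = s := by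
  obtain ⟨h1, h2⟩ := h
  have e1 : z3 (eA 0) ≤ z3 (endTab 0) := z3_le (by decide +kernel)
  have e2 : z3 (eA 1) ≤ z3 (eB 0) := z3_le (by decide +kernel)
  have e3 : z3 (eA 2) ≤ z3 (eB 1) := z3_le (by decide +kernel)
  have e4 : z3 (eA 3) ≤ z3 (eB 2) := z3_le (by decide +kernel)
  have e5 : z3 ((endTab 0).1 + 2, (endTab 0).2) ≤ z3 (eB 3) := z3_le (by decide +kernel)
  have e6 : z3 ((endTab 0).1 + 2, (endTab 0).2) = z3 (endTab 0) + 2 := by
    unfold z3; push_cast; ring
  unfold lft at h1 h2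
  by_cases c0 : s ≤ z3 (eB 0) / 2
  · exact ⟨0, by decide, by decide, cover 0 (by linarith) c0⟩
  by_cases c1 : s ≤ z3 (eB 1) / 2
  · exact ⟨1, by decide, by decide, cover 1 (by linarith) c1⟩
  by_cases c2 : s ≤ z3 (eB 2) / 2
  · exact ⟨2, by decide, by decide, cover 2 (by linarith) c2⟩
  exact ⟨3, by decide, by decide, cover 3 (by linarith) (by linarith)⟩

theorem coverK1 {s : ℝ} (h : s ∈ K 1) :
    ∃ r : Fin 13, r.val < 12 ∧ roleTgt r = 1 ∧ ∃ s' ∈ K (roleSrc r), roleMap r s' = s := by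
  obtain ⟨h1, h2⟩ := h
  have e1 : z3 (eA 4) ≤ z3 (endTab 1) := z3_le (by decide +kernel)
  have e2 : z3 (eA 5) ≤ z3 (eB 4) := z3_le (by decide +kernel)
  have e3 : z3 (eA 6) ≤ z3 (eB 5) := z3_le (by decide +kernel)
  have e4 : z3 (eA 7) ≤ z3 (eB 6) := z3_le (by decide +kernel)
  have e5 : z3 ((endTab 1).1 + 2, (endTab 1).2) ≤ z3 (eB 7) := z3_le (by decide +kernel)
  have e6 : z3 ((endTab 1).1 + 2, (endTab 1).2) = z3 (endTab 1) + 2 := by
    unfold z3; push_cast; ring
  unfold lft at h1 h2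
  by_cases c0 : s ≤ z3 (eB 4) / 2
  · exact ⟨4, by decide, by decide, cover 4 (by linarith) c0⟩
  by_cases c1 : s ≤ z3 (eB 5) / 2
  · exact ⟨5, by decide, by decide, cover 5 (by linarith) c1⟩
  by_cases c2 : s ≤ z3 (eB 6) / 2
  · exact ⟨6, by decide, by decide, cover 6 (by linarith) c2⟩
  exact ⟨7, by decide, by decide, cover 7 (by linarith) (by linarith)⟩

theorem coverK2 {s : ℝ} (h : s ∈ K 2) :
    ∃ r : Fin 13, 8 ≤ r.val ∧ r.val < 12 ∧ roleTgt r = 2 ∧
      ∃ s' ∈ K (roleSrc r), roleMap r s' = s := by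
  obtain ⟨h1, h2⟩ := h
  have e1 : z3 (eA 8) ≤ z3 (endTab 2) := z3_le (by decide +kernel)
  have e2 : z3 (eA 9) ≤ z3 (eB 8) := z3_le (by decide +kernel)
  have e3 : z3 (eA 10) ≤ z3 (eB 9) := z3_le (by decide +kernel)
  have e4 : z3 (eA 11) ≤ z3 (eB 10) := z3_le (by decide +kernel)
  have e5 : z3 ((endTab 2).1 + 2, (endTab 2).2) ≤ z3 (eB 11) := z3_le (by decide +kernel)
  have e6 : z3 ((endTab 2).1 + 2, (endTab 2).2) = z3 (endTab 2) + 2 := by
    unfold z3; push_cast; ring
  unfold lft at h1 h2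
  by_cases c0 : s ≤ z3 (eB 8) / 2
  · exact ⟨8, by decide, by decide, by decide, cover 8 (by linarith) c0⟩
  by_cases c1 : s ≤ z3 (eB 9) / 2
  · exact ⟨9, by decide, by decide, by decide, cover 9 (by linarith) c1⟩
  by_cases c2 : s ≤ z3 (eB 10) / 2
  · exact ⟨10, by decide, by decide, by decide, cover 10 (by linarith) c2⟩
  exact ⟨11, by decide, by decide, by decide, cover 11 (by linarith) (by linarith)⟩

theorem part1 (i : Fin 3) {s : ℝ} (h : s ∈ K i) : ∃ r : Fin 13, r.val < 12 ∧ roleTgt r = i ∧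
    ∃ s' ∈ K (roleSrc r), roleMap r s' = s := by
  fin_cases i
  · exact coverK0 h
  · exact coverK1 h
  · obtain ⟨r, _, h2, h3, h4⟩ := coverK2 h
    exact ⟨r, h2, h3, h4⟩

theorem part2 (n : ℕ) : ∀ (i : Fin 3) (s : ℝ), s ∈ K i → ∃ j p, RPath j i p ∧
    (∀ r ∈ p, r.val < 12) ∧ p.length = n ∧ ∃ s' ∈ K j, pathMap p s' = s := by
  induction n with
  | zero =>
    intro i s hs
    exact ⟨i, [], RPath.nil i, by simp, rfl, s, hs, rfl⟩
  | succ n ih =>
    intro i s hs
    obtain ⟨r, hr, rfl, s₁, hs₁, hs₂⟩ := part1 i hs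
    obtain ⟨j, p, hp, hp2, hp3, s', hs', hs''⟩ := ih _ s₁ hs₁
    refine ⟨j, p ++ [r], rpath_append hp (rpath_single r), ?_, by simp [hp3], s', hs', ?_⟩
    · intro r' hr'
      rw [List.mem_append, List.mem_singleton] at hr'
      rcases hr' with h | h
      · exact hp2 r' h
      · rw [h]; exact hr
    · rw [pathMap_append, hs'']
      exact hs₂

/-- Extension of a last role to the left. -/
theorem ext_left {r : Fin 13} (hr : r.val < 12) {s₁ : ℝ}
    (h : ∃ s' ∈ K (roleSrc r), roleMap r s' = s₁) (n : ℕ) (hn : 1 ≤ n) :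
    ∃ j p, RPath j (roleTgt r) (p ++ [r]) ∧ (∀ r' ∈ p ++ [r], r'.val < 12) ∧
      p.length + 1 = n ∧ ∃ s' ∈ K j, pathMap (p ++ [r]) s' = s₁ := by
  obtain ⟨s₂, h1, h2⟩ := h
  obtain ⟨j, p, hp, hp2, hp3, s', hs', hs''⟩ := part2 (n - 1) _ s₂ h1
  refine ⟨j, p, rpath_append hp (rpath_single r), ?_, by omega, s', hs', ?_⟩
  · intro r' hr'
    rw [List.mem_append, List.mem_singleton] at hr'
    rcases hr' with h | h
    · exact hp2 r' h
    · rw [h]; exact hr
  · rw [pathMap_append, hs'']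
    exact h2

theorem find_pow {s t : ℝ} (ht : 0 < t) (h : t < s) :
    ∃ m : ℕ, 1 ≤ m ∧ s / lam ^ m ≤ t ∧ t / lam < s / lam ^ m := by
  classical
  have h1 := (tendsto_div_pow s).eventually (gt_mem_nhds ht)
  obtain ⟨n, hn⟩ := h1.exists
  have hex : ∃ m : ℕ, s / lam ^ m ≤ t := ⟨n, hn.le⟩
  have hl := lam_pos
  refine ⟨Nat.find hex, ?_, Nat.find_spec hex, ?_⟩
  · by_contra hc
    have h0 : Nat.find hex = 0 := by omega
    have h2 := Nat.find_spec hex
    rw [h0] at h2
    simp at h2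
    linarith
  · have hm : 1 ≤ Nat.find hex := by
      by_contra hc
      have h0 : Nat.find hex = 0 := by omega
      have h2 := Nat.find_spec hex
      rw [h0] at h2
      simp at h2
      linarith
    have h3 := Nat.find_min hex (m := Nat.find hex - 1) (by omega)
    push Not at h3
    have h4 : s / lam ^ (Nat.find hex) = s / lam ^ (Nat.find hex - 1) / lam := by
      rw [div_div, ← pow_succ]
      congr 2
      omega
    rw [h4]
    exact div_lt_div_of_pos_right h3 hl

theorem part3 (s : ℝ) (h0 : s ∉ K 0) (h1 : s ∉ K 1) (h2 : s ∉ K 2) :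
    ∃ (m : ℕ) (i : Fin 3) (s₁ : ℝ), 1 ≤ m ∧
    s = lam ^ m * s₁ ∧ s₁ ∈ K i ∧ ∀ n : ℕ, 1 ≤ n →
      ∃ j p, ∃ r : Fin 13, RPath j i (p ++ [r]) ∧ (∀ r' ∈ p ++ [r], r'.val < 12) ∧
        roleLetter r ≠ 1 ∧
        roleLetter r ≠ 2 ∧ p.length + 1 = n ∧ ∃ s' ∈ K j, pathMap (p ++ [r]) s' = s₁ := by
  have hl := lam_pos
  have e1 : z3 (endTab 1) ≤ z3 ((endTab 0).1 + 2, (endTab 0).2) := z3_le (by decide +kernel)
  have e2 : z3 (endTab 2) ≤ z3 ((endTab 1).1 + 2, (endTab 1).2) := z3_le (by decide +kernel)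
  have e3 : z3 ((endTab 0).1 + 2, (endTab 0).2) = z3 (endTab 0) + 2 := by
    unfold z3; push_cast; ring
  have e4 : z3 ((endTab 1).1 + 2, (endTab 1).2) = z3 (endTab 1) + 2 := by
    unfold z3; push_cast; ring
  have l0 : lft 0 = z3 (endTab 0) / 2 := rfl
  have l1 : lft 1 = z3 (endTab 1) / 2 := rfl
  have l2 : lft 2 = z3 (endTab 2) / 2 := rfl
  by_cases hA : s < lft 0
  · -- the negative side
    have hneg : lft 0 < 0 := by
      have : lft 0 = (-3 + √3) / 2 := by simp [lft, endTab, z3]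
      rw [this]; linarith [sq3_hi]
    obtain ⟨m, hm, hm1, hm2⟩ := find_pow (s := -s) (t := -lft 0) (by linarith) (by linarith)
    have hm1' : lft 0 ≤ s / lam ^ m := by
      have : -s / lam ^ m = -(s / lam ^ m) := by ring
      rw [this] at hm1; linarith
    have hm2' : s / lam ^ m < lft 0 / lam := by
      have : -s / lam ^ m = -(s / lam ^ m) := by ring
      rw [this] at hm2
      have h3 : -lft 0 / lam = -(lft 0 / lam) := by ring
      rw [h3] at hm2; linarith
    have e5 : z3 (dl (endTab 0)) ≤ z3 (eB 1) := z3_le (by decide +kernel)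
    have e6 : z3 (dl (endTab 0)) = 2 * (lft 0 / lam) := by rw [z3_dl, l0]; ring
    have e7 : z3 (eA 0) ≤ z3 (endTab 0) := z3_le (by decide +kernel)
    have e8 : z3 (eA 1) ≤ z3 (eB 0) := z3_le (by decide +kernel)
    refine ⟨m, 0, s / lam ^ m, hm, ?_, ⟨hm1', ?_⟩, ?_⟩
    · rw [mul_div_assoc', mul_comm, mul_div_assoc, div_self (pow_pos hl m).ne', mul_one]
    · have : lft 0 / lam < 0 := div_neg_of_neg_of_pos hneg hl
      have hh : -1 < lft 0 := by
        have : lft 0 = (-3 + √3) / 2 := by simp [lft, endTab, z3]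
        rw [this]; linarith [sq3_lo]
      linarith
    · intro n hn
      by_cases c0 : s / lam ^ m ≤ z3 (eB 0) / 2
      · obtain ⟨j, p, h3, h4, h5, h6⟩ := ext_left (r := 0) (by decide)
          (cover 0 (s := s / lam ^ m) (by rw [l0] at hm1'; linarith) c0) n hn
        exact ⟨j, p, 0, h3, h4, by decide, by decide, h5, h6⟩
      · obtain ⟨j, p, h3, h4, h5, h6⟩ := ext_left (r := 1) (by decide)
          (cover 1 (s := s / lam ^ m) (by push Not at c0; linarith) (by linarith)) n hn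
        exact ⟨j, p, 1, h3, h4, by decide, by decide, h5, h6⟩
  · -- the positive side
    push Not at hA
    have hB : lft 2 + 1 < s := by
      by_contra hc
      push Not at hc
      have g0 : lft 0 + 1 < s := by
        by_contra hc'
        push Not at hc'
        exact h0 ⟨hA, hc'⟩
      have g1 : lft 1 + 1 < s := by
        by_contra hc'
        push Not at hc'
        exact h1 ⟨by linarith, hc'⟩
      exact h2 ⟨by linarith, hc⟩
    have hpos : 0 < lft 2 + 1 := by
      have : lft 2 = (-1 + √3) / 2 := by simp [lft, endTab, z3]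
      rw [this]; linarith [sq3_lo]
    obtain ⟨m, hm, hm1, hm2⟩ := find_pow (s := s) (t := lft 2 + 1) hpos hB
    have e5 : z3 (endTab 2) ≤ z3 (dl ((endTab 2).1 + 2, (endTab 2).2)) := z3_le (by decide +kernel)
    have e6 : z3 (dl ((endTab 2).1 + 2, (endTab 2).2)) = 2 * ((lft 2 + 1) / lam) := by
      rw [z3_dl, l2]
      have : z3 ((endTab 2).1 + 2, (endTab 2).2) = z3 (endTab 2) + 2 := by
        unfold z3; push_cast; ring
      rw [this]; ring
    have hK : s / lam ^ m ∈ K 2 := ⟨by linarith, hm1⟩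
    refine ⟨m, 2, s / lam ^ m, hm, ?_, hK, ?_⟩
    · rw [mul_div_assoc', mul_comm, mul_div_assoc, div_self (pow_pos hl m).ne', mul_one]
    · intro n hn
      obtain ⟨r, hr1, hr2, hr3, hr4⟩ := coverK2 hK
      obtain ⟨j, p, h3, h4, h5, h6⟩ := ext_left hr2 hr4 n hn
      have hlet : ∀ r : Fin 13, 8 ≤ r.val → r.val < 12 → roleLetter r ≠ 1 ∧ roleLetter r ≠ 2 := by
        decide
      rw [hr3] at h3
      exact ⟨j, p, r, h3, h4, (hlet r hr1 hr2).1, (hlet r hr1 hr2).2, h5, h6⟩

theorem part4 (r : Fin 13) (h : r.val < 12) (h1 : roleLetter r ≠ 1) (h2 : roleLetter r ≠ 2)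
    (s : ℝ) (hs : s ∈ K (roleSrc r)) : (1 / 8 : ℝ) ≤ |roleMap r s| := by
  have key : ∀ r : Fin 13, r.val < 12 → roleLetter r ≠ 1 → roleLetter r ≠ 2 →
      (nn (-4 * (eB r).1 - 1, -4 * (eB r).2) = true ∨ nn (4 * (eA r).1 - 1, 4 * (eA r).2) = true) := by
    decide +kernel
  rcases key r h h1 h2 with h3 | h3
  · have h4 := nn_spec h3
    have h5 : z3 (-4 * (eB r).1 - 1, -4 * (eB r).2) = -4 * z3 (eB r) - 1 := by
      unfold z3; push_cast; ring
    rw [h5] at h4
    have h6 := roleMap_mono r hs.2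
    rw [B_eq] at h6
    rw [abs_of_neg (by linarith)]
    linarith
  · have h4 := nn_spec h3
    have h5 : z3 (4 * (eA r).1 - 1, 4 * (eA r).2) = 4 * z3 (eA r) - 1 := by
      unfold z3; push_cast; ring
    rw [h5] at h4
    have h6 := roleMap_mono r hs.1
    rw [A_eq] at h6
    rw [abs_of_pos (by linarith)]
    linarith

end CodeAux

theorem stmt_Code : Stmt_Code :=
  ⟨fun i _ hs => CodeAux.part1 i hs, fun i s hs n => CodeAux.part2 n i s hs,
    CodeAux.part3, CodeAux.part4⟩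

end Pool.Agent.CircleShift

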