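import Pool.Agent.Work.MP_0fc146_gt_helper2.Code
import Pool.Agent.Work.MP_0fc146_gt_helper78.Sub
import Pool.Agent.Work.MP_0fc146_gt_helper72.TREEpath

/-!
# Block INJ of MP_0fc146_gt: two explicit values
-/

noncomputable section

open scoped Topology
open Filter

namespace Pool.Agent.CircleShift

namespace InjAux

def roleEta : Fin 13 → List (Fin 4) := ![
  [],
  [1, 0, 1, 0, 1, 0, 1, 2, 1, 0, 1, 0, 1, 0, 1],
  [2, 3, 1, 0, 1, 0, 1, 0, 1],
  [1, 0, 1, 0, 1, 0, 1, 2, 1, 0, 1, 0, 1, 0, 1, 0, 1, 2, 3, 2, 1, 0, 1, 0, 1, 0, 1, 0, 1, 2, 1, 0, 1, 0, 1, 0, 1],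
  [],
  [1, 0, 1, 0, 1],
  [3, 2, 1, 0, 1, 0, 1, 0, 1, 0, 1, 2, 1, 0, 1, 0, 1, 0, 1],
  [1, 0, 1, 0, 1, 0, 1, 2, 3, 1, 0, 1, 0, 1, 0, 1],
  [],
  [0, 1, 2, 3],
  [1, 2, 3, 0, 1, 2, 3],
  [1, 2, 3, 0, 1, 2, 3, 0, 1, 2, 3],
  [0, 1, 2, 3, 2, 1, 2, 1, 2, 1, 2]]

def lowW : Fin 3 → List (Fin 4) := ![[3, 1, 0, 2], [3, 0, 2, 1], [3, 2, 1, 0]]

def cG (j : Fin 3) : G := posG [0, 1, 2, 3] * (posG (lowW j))⁻¹

theorem inv_posG (l : List (Fin 4)) : (posG l)⁻¹ = FreeGroup.mk (FreeGroup.invRev (posW l)) := by
  unfold posG; rw [FreeGroup.inv_mk]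

theorem role_c (r : Fin 13) :
    roleAut r (cG (roleTgt r)) = posG (roleEta r) * cG (roleSrc r) * (posG (roleEta r))⁻¹ := by
  have key : ∀ r : Fin 13, FreeGroup.reduce (substW (fun i => posW (roleSub r i))
      (posW [0, 1, 2, 3] ++ FreeGroup.invRev (posW (lowW (roleTgt r))))) =
      FreeGroup.reduce (posW (roleEta r) ++ (posW [0, 1, 2, 3] ++
        FreeGroup.invRev (posW (lowW (roleSrc r)))) ++ FreeGroup.invRev (posW (roleEta r))) := by
    decide +kernel
  have h1 : ∀ j, cG j = FreeGroup.mk (posW [0, 1, 2, 3] ++ FreeGroup.invRev (posW (lowW j))) := by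
    intro j
    unfold cG
    rw [inv_posG]
    unfold posG
    rw [FreeGroup.mul_mk]
  rw [h1, h1, inv_posG]
  unfold posG roleAut
  rw [ofTabs_mk, FreeGroup.mul_mk, FreeGroup.mul_mk]
  exact FreeGroup.reduce.exact (key r)

/-- The conjugating positive word of a path. -/
def eta : List (Fin 13) → List (Fin 4)
  | [] => []
  | r :: p => (eta p).flatMap (roleSub r) ++ roleEta r

theorem path_c {j i : Fin 3} {p : List (Fin 13)} (h : RPath j i p) :
    pathAut p (cG i) = posG (eta p) * cG j * (posG (eta p))⁻¹ := by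
  induction h with
  | nil j => simp [pathAut_nil, eta, SubAux.posG_nil]
  | cons r p i _ ih =>
    rw [pathAut_cons, MulAut.mul_apply, ih, map_mul, map_mul, map_inv, SubAux.roleAut_posG, role_c]
    have h2 : posG (eta (r :: p)) = posG ((eta p).flatMap (roleSub r)) * posG (roleEta r) := by
      rw [← SubAux.posG_append]; rfl
    rw [h2]
    group

theorem role_len (r : Fin 13) : wlen (roleSrc r) (posW (roleEta r)) =
    lam * (roleT r - lft (roleTgt r)) + lft (roleSrc r) := by
  have key : ∀ r : Fin 13, 2 * (SubAux.psum (widTab (roleSrc r)) (roleEta r)).1 =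
      (ml (2 * (roleB r).1 - (endTab (roleTgt r)).1, 2 * (roleB r).2 - (endTab (roleTgt r)).2)).1 +
        (endTab (roleSrc r)).1 ∧
      2 * (SubAux.psum (widTab (roleSrc r)) (roleEta r)).2 =
      (ml (2 * (roleB r).1 - (endTab (roleTgt r)).1, 2 * (roleB r).2 - (endTab (roleTgt r)).2)).2 +
        (endTab (roleSrc r)).2 := by
    decide +kernel
  obtain ⟨k1, k2⟩ := key r
  rw [SubAux.wlen_posW]
  have h1 : 2 * z3 (SubAux.psum (widTab (roleSrc r)) (roleEta r)) =
      z3 (ml (2 * (roleB r).1 - (endTab (roleTgt r)).1, 2 * (roleB r).2 - (endTab (roleTgt r)).2)) +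
        z3 (endTab (roleSrc r)) := by
    have k1' : (2 : ℝ) * (SubAux.psum (widTab (roleSrc r)) (roleEta r)).1 =
      (ml (2 * (roleB r).1 - (endTab (roleTgt r)).1, 2 * (roleB r).2 - (endTab (roleTgt r)).2)).1 +
        (endTab (roleSrc r)).1 := by exact_mod_cast k1
    have k2' : (2 : ℝ) * (SubAux.psum (widTab (roleSrc r)) (roleEta r)).2 =
      (ml (2 * (roleB r).1 - (endTab (roleTgt r)).1, 2 * (roleB r).2 - (endTab (roleTgt r)).2)).2 +
        (endTab (roleSrc r)).2 := by exact_mod_cast k2
    unfold z3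
    linear_combination k1' + √3 * k2'
  have h2 : z3 (2 * (roleB r).1 - (endTab (roleTgt r)).1, 2 * (roleB r).2 - (endTab (roleTgt r)).2) =
      2 * z3 (roleB r) - z3 (endTab (roleTgt r)) := by
    unfold z3; push_cast; ring
  rw [z3_ml, h2] at h1
  unfold roleT lft
  linarith

theorem eta_len {j i : Fin 3} {p : List (Fin 13)} (h : RPath j i p) (s : ℝ) :
    wlen j (posW (eta p)) = lam ^ p.length * (pathMap p s - lft i) - (s - lft j) := by
  induction h generalizing s with
  | nil j => simp [eta, posW, wlen, pathMap_nil]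
  | cons r p i _ ih =>
    have h2 : eta (r :: p) = (eta p).flatMap (roleSub r) ++ roleEta r := rfl
    rw [h2, SubAux.posW_append, SubAux.wlen_append, SubAux.wlen_flatMap, ih (roleMap r s), role_len,
      pathMap_cons, List.length_cons, pow_succ]
    have h3 : lam * roleMap r s = s + lam * roleT r := by
      unfold roleMap
      have := lam_pos.ne'
      field_simp
    linear_combination -h3

/-- The possible pairs of first letters. -/
def rel (x : Fin 4) (y : Option (Fin 4)) : Bool :=
  decide ((x, y) ∈ ([(0, some 2), (1, some 0), (1, some 3), (1, none), (2, some 1), (3, some 2)] :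
    List (Fin 4 × Option (Fin 4))))

theorem rel_ne : ∀ x y : Fin 4, rel x (some y) = true → x ≠ y := by decide

theorem rel_none : ∀ x : Fin 4, rel x none = true → x ≠ 3 := by decide

theorem rel_step : ∀ (r : Fin 13) (x : Fin 4) (y : Option (Fin 4)), rel x y = true →
    ∃ x', (roleSub r x).head? = some x' ∧
      rel x' (match y with
        | some y => (roleSub r y).head?
        | none => (roleEta r).head?) = true := by
  decide +kernel

theorem sub_ne_nil : ∀ (r : Fin 13) (x : Fin 4), roleSub r x ≠ [] := by decide +kernel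

theorem rel_path (p : List (Fin 13)) : ∃ x, (pathSub p 1).head? = some x ∧
    rel x (eta p).head? = true := by
  induction p with
  | nil => exact ⟨1, rfl, by decide⟩
  | cons r p ih =>
    obtain ⟨x, hx, hr⟩ := ih
    obtain ⟨x', hx', hr'⟩ := rel_step r x _ hr
    refine ⟨x', ?_, ?_⟩
    · show ((pathSub p 1).flatMap (roleSub r)).head? = some x'
      obtain ⟨l, hl⟩ : ∃ l, pathSub p 1 = x :: l := by
        rcases h : pathSub p 1 with _ | ⟨a, l⟩
        · rw [h] at hx; simp at hx
        · rw [h] at hx; simp at hx; exact ⟨l, by rw [hx]⟩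
      rw [hl, List.flatMap_cons, List.head?_append, hx']
      rfl
    · have h2 : eta (r :: p) = (eta p).flatMap (roleSub r) ++ roleEta r := rfl
      rw [h2]
      rcases h : eta p with _ | ⟨y, l⟩
      · rw [h] at hr'
        simpa using hr'
      · rw [h] at hr'
        simp only [List.head?_cons] at hr'
        rw [List.flatMap_cons, List.append_assoc, List.head?_append]
        rcases h5 : (roleSub r y).head? with _ | z
        · exact absurd (List.head?_eq_none_iff.1 h5) (sub_ne_nil r y)
        · rw [h5] at hr'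
          simpa using hr'

/-! ### Reduced words -/

theorem SH_reduced {w : List (Fin 4 × Bool)} (h : SH w) : FreeGroup.IsReduced w := by
  unfold FreeGroup.IsReduced
  apply List.Pairwise.isChain
  rw [List.pairwise_iff_forall_sublist]
  intro a b hab _
  exact h a (hab.subset (by simp)) b (hab.subset (by simp))

theorem SH_posW (l : List (Fin 4)) : SH (posW l) := by
  intro x hx y hy
  unfold posW at hx hy
  rw [List.mem_map] at hx hy
  obtain ⟨_, _, rfl⟩ := hx
  obtain ⟨_, _, rfl⟩ := hy
  rfl

theorem mem_invRev_posW {l : List (Fin 4)} {x : Fin 4 × Bool}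
    (hx : x ∈ FreeGroup.invRev (posW l)) : x.2 = false := by
  unfold FreeGroup.invRev posW at hx
  simp only [List.map_map, List.mem_reverse, List.mem_map] at hx
  obtain ⟨a, _, rfl⟩ := hx
  rfl

theorem SH_invRev_posW (l : List (Fin 4)) : SH (FreeGroup.invRev (posW l)) := by
  intro x hx y hy
  rw [mem_invRev_posW hx, mem_invRev_posW hy]

theorem wlen_invRev (j : Fin 3) (w : List (Fin 4 × Bool)) :
    wlen j (FreeGroup.invRev w) = wlen j w := by
  unfold wlen FreeGroup.invRev
  rw [List.map_reverse, List.sum_reverse, List.map_map]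
  rfl

theorem mk_toWord {w : List (Fin 4 × Bool)} (h : FreeGroup.IsReduced w) :
    (FreeGroup.mk w).toWord = w := by
  rw [FreeGroup.toWord_mk, h.reduce_eq]

theorem head_posW (l : List (Fin 4)) : (posW l).head? = l.head?.map (fun i => (i, true)) := by
  unfold posW; rw [List.head?_map]

theorem last_posW (l : List (Fin 4)) : (posW l).getLast? = l.getLast?.map (fun i => (i, true)) := by
  unfold posW; rw [List.getLast?_map]

/-- The cyclically reduced word. -/
def bigW (j : Fin 3) (p : List (Fin 13)) : List (Fin 4 × Bool) :=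
  FreeGroup.invRev (posW (eta p)) ++
    (posW (pathSub p 1 ++ (eta p ++ [0, 1, 2, 3])) ++ FreeGroup.invRev (posW (lowW j)))

theorem low_head : ∀ j : Fin 3, (lowW j).head? = some 3 := by decide

theorem low_last : ∀ j : Fin 3, ∀ x, (lowW j).getLast? = some x → x ≠ 3 := by decide

theorem head_invRev (u : List (Fin 4 × Bool)) :
    (FreeGroup.invRev u).head? = u.getLast?.map (fun x => (x.1, !x.2)) := by
  unfold FreeGroup.invRev
  rw [List.head?_reverse, List.getLast?_map]

theorem bigW_cyc (j : Fin 3) (p : List (Fin 13)) :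
    FreeGroup.IsCyclicallyReduced (bigW j p) := by
  obtain ⟨x, hx, hr⟩ := rel_path p
  obtain ⟨P, hP⟩ : ∃ P, pathSub p 1 = x :: P := by
    rcases h : pathSub p 1 with _ | ⟨a, l⟩
    · rw [h] at hx; simp at hx
    · rw [h] at hx; simp at hx; exact ⟨l, by rw [hx]⟩
  constructor
  · show FreeGroup.IsReduced (bigW j p)
    unfold bigW
    rw [isReduced_append_iff, isReduced_append_iff]
    refine ⟨SH_reduced (SH_invRev_posW _), ⟨SH_reduced (SH_posW _), SH_reduced (SH_invRev_posW _),
      ?_⟩, ?_⟩
    · intro a ha b hb hab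
      exfalso
      rw [last_posW, ← List.append_assoc, List.getLast?_append] at ha
      simp only [List.getLast?_cons, List.getLast?_nil, Option.getD_none, Option.getD_some,
        Option.some_or, Option.map_some, Option.mem_def, Option.some.injEq] at ha
      rw [head_invRev, last_posW] at hb
      simp only [Option.map_map, Option.mem_def, Option.map_eq_some_iff] at hb
      obtain ⟨c, hc1, rfl⟩ := hb
      have h3 := low_last j c hc1
      rw [← ha] at hab
      exact h3 hab.symm
    · intro a ha b hb hab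
      exfalso
      rw [getLast?_invRev, head_posW] at ha
      rw [hP] at hb
      simp only [Option.map_map, Option.mem_def, Option.map_eq_some_iff] at ha
      obtain ⟨c, hc1, rfl⟩ := ha
      simp only [posW, List.cons_append, List.map_cons, List.head?_cons, Option.mem_def,
        Option.some.injEq] at hb
      rw [← hb] at hab
      rw [hc1] at hr
      exact rel_ne x c hr hab.symm
  · intro a ha b hb hab
    unfold bigW at ha hb
    rw [List.getLast?_append, List.getLast?_append, getLast?_invRev, head_posW, low_head] at ha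
    simp only [Option.map_some, Option.some_or, Option.mem_def, Option.some.injEq] at ha
    rw [← ha]
    rcases h : eta p with _ | ⟨y, l⟩
    · exfalso
      rw [h] at hb hr
      rw [hP] at hb
      simp only [posW, FreeGroup.invRev, List.map_nil, List.reverse_nil, List.nil_append,
        List.cons_append, List.map_cons, List.head?_cons, Option.mem_def,
        Option.some.injEq] at hb
      rw [← hb, ← ha] at hab
      exact rel_none x hr hab.symm
    · rw [List.head?_append, head_invRev, last_posW, h] at hb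
      simp only [List.getLast?_cons, Option.map_some, Option.some_or, Option.mem_def,
        Option.some.injEq] at hb
      rw [← hb]

theorem bigW_pieces (j : Fin 3) (p : List (Fin 13)) : Pieces 3 (FreeGroup.mk (bigW j p)) := by
  refine ⟨[FreeGroup.invRev (posW (eta p)), posW (pathSub p 1 ++ (eta p ++ [0, 1, 2, 3])),
    FreeGroup.invRev (posW (lowW j))], by simp, ?_, ?_⟩
  · intro w hw
    simp only [List.mem_cons, List.not_mem_nil, or_false] at hw
    rcases hw with rfl | rfl | rfl
    · exact SH_invRev_posW _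
    · exact SH_posW _
    · exact SH_invRev_posW _
  · rw [mk_toWord (bigW_cyc j p).isReduced]
    simp [bigW]

theorem conj_aux (a b c : G) : IsConj (b * (a * c * a⁻¹)) (a⁻¹ * b * a * c) := by
  rw [isConj_iff]
  exact ⟨a⁻¹, by group⟩

theorem bigW_conj {j i : Fin 3} {p : List (Fin 13)} (h : RPath j i p) :
    IsConj (pathAut p (FreeGroup.of 1 * cG i)) (FreeGroup.mk (bigW j p)) := by
  rw [map_mul, path_c h, SubAux.pathAut_of]
  have h1 : FreeGroup.mk (bigW j p) = (posG (eta p))⁻¹ * posG (pathSub p 1) * posG (eta p) * cG j := by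
    unfold bigW cG
    rw [← FreeGroup.mul_mk, ← FreeGroup.mul_mk, ← inv_posG, ← inv_posG]
    have h2 : FreeGroup.mk (posW (pathSub p 1 ++ (eta p ++ [0, 1, 2, 3]))) =
        posG (pathSub p 1) * (posG (eta p) * posG [0, 1, 2, 3]) := by
      rw [← SubAux.posG_append, ← SubAux.posG_append]; rfl
    rw [h2]
    group
  rw [h1]
  exact conj_aux _ _ _

theorem sum_wid (j : Fin 3) : wlen j (posW [0, 1, 2, 3]) = 1 ∧ wlen j (posW (lowW j)) = 1 := by
  have key : ∀ j : Fin 3, SubAux.psum (widTab j) [0, 1, 2, 3] = (1, 0) ∧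
      SubAux.psum (widTab j) (lowW j) = (1, 0) := by decide +kernel
  rw [SubAux.wlen_posW, SubAux.wlen_posW, (key j).1, (key j).2]
  simp [z3]

theorem bigW_len {j i : Fin 3} {p : List (Fin 13)} (h : RPath j i p) (s : ℝ) :
    wnorm j (FreeGroup.mk (bigW j p)) = lam ^ p.length * (wid i 1 + 2 * (pathMap p s - lft i)) +
      2 * (1 - (s - lft j)) := by
  unfold wnorm
  rw [mk_toWord (bigW_cyc j p).isReduced]
  unfold bigW
  rw [SubAux.wlen_append, SubAux.wlen_append, wlen_invRev, wlen_invRev, SubAux.posW_append,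
    SubAux.posW_append, SubAux.wlen_append, SubAux.wlen_append, (sum_wid j).1, (sum_wid j).2,
    eta_len h s, SubAux.path_eig j i p h]
  ring

theorem conj_V (hV : Stmt_VConj) {j : Fin 3} {s : ℝ} {g g' : G} (h : IsConj g g') :
    V j s g' = V j s g := by
  rw [isConj_iff] at h
  obtain ⟨c, rfl⟩ := h
  exact (hV _ _ _).1

theorem eq_of_pow {a b D : ℝ} (h : ∀ n : ℕ, |a - b| ≤ D / lam ^ n) : a = b := by
  have h1 := tendsto_div_pow D
  have h2 : |a - b| ≤ 0 := ge_of_tendsto' h1 h
  have h3 : |a - b| = 0 := le_antisymm h2 (abs_nonneg _)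
  linarith [abs_eq_zero.1 h3]

end InjAux

open InjAux in
theorem stmt_Inj (hP : Stmt_PathV) (hC : Stmt_Coarse) (hV : Stmt_VConj) : Stmt_Inj := by
  obtain ⟨C, hC0, hC1⟩ := hC
  have hl := lam_pos
  intro s₀ hs₀
  constructor
  · apply eq_of_pow (D := C)
    intro n
    obtain ⟨j, p, hp, _, rfl, s, hs, rfl⟩ := stmt_Code.2.1 0 s₀ hs₀ n
    obtain ⟨_, h2⟩ := hP j 0 p hp s hs
    rw [h2, SubAux.pathAut_of]
    obtain ⟨h3, h4⟩ := hC1 j s hs
    have hred : FreeGroup.IsReduced (posW (pathSub p 0)) := SH_reduced (SH_posW _)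
    have h5 : CycRed (posG (pathSub p 0)) := by
      unfold CycRed posG
      rw [mk_toWord hred]
      refine ⟨hred, ?_⟩
      intro a ha b hb _
      exact SH_posW _ a (List.mem_of_getLast? ha) b (List.mem_of_head? hb)
    have h6 : Pieces 1 (posG (pathSub p 0)) := by
      refine ⟨[posW (pathSub p 0)], by simp, ?_, ?_⟩
      · intro w hw
        rw [List.mem_singleton] at hw
        rw [hw]; exact SH_posW _
      · unfold posG
        rw [mk_toWord hred]; simp
    have h7 := h4 _ 1 h5 h6
    have h8 := h3 (posG (pathSub p 0))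
    have h9 : wnorm j (posG (pathSub p 0)) = lam ^ p.length * wid 0 0 := by
      unfold wnorm posG
      rw [mk_toWord hred]
      exact SubAux.path_eig j 0 p hp 0
    rw [h9] at h7 h8
    have hp' := pow_pos hl p.length
    have h10 : (lam ^ p.length)⁻¹ * V j s (posG (pathSub p 0)) - wid 0 0 =
        (V j s (posG (pathSub p 0)) - lam ^ p.length * wid 0 0) / lam ^ p.length := by
      field_simp
    rw [h10, abs_div, abs_of_pos hp']
    apply div_le_div_of_nonneg_right _ hp'.le
    rw [abs_le]
    constructor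
    · push_cast at h7; linarith
    · linarith
  · have hg : FreeGroup.of 1 * (posG [0, 1, 2, 3] * (posG [3, 1, 0, 2])⁻¹) =
        FreeGroup.of 1 * cG 0 := rfl
    rw [hg]
    apply eq_of_pow (D := 2 + 3 * C)
    intro n
    obtain ⟨j, p, hp, _, rfl, s, hs, rfl⟩ := stmt_Code.2.1 0 s₀ hs₀ n
    obtain ⟨_, h2⟩ := hP j 0 p hp s hs
    rw [h2, ← conj_V hV (bigW_conj hp)]
    obtain ⟨h3, h4⟩ := hC1 j s hs
    have hred := (bigW_cyc j p).isReduced
    have h5 : CycRed (FreeGroup.mk (bigW j p)) := by
      unfold CycRed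
      rw [mk_toWord hred]
      exact bigW_cyc j p
    have h7 := h4 _ 3 h5 (bigW_pieces j p)
    have h8 := h3 (FreeGroup.mk (bigW j p))
    rw [bigW_len hp s] at h7 h8
    have hp' := pow_pos hl p.length
    have h10 : (lam ^ p.length)⁻¹ * V j s (FreeGroup.mk (bigW j p)) -
        (wid 0 1 + 2 * (pathMap p s - lft 0)) =
        (V j s (FreeGroup.mk (bigW j p)) -
          lam ^ p.length * (wid 0 1 + 2 * (pathMap p s - lft 0))) / lam ^ p.length := by
      field_simp
    rw [h10, abs_div, abs_of_pos hp']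
    apply div_le_div_of_nonneg_right _ hp'.le
    obtain ⟨hs1, hs2⟩ := hs
    rw [abs_le]
    constructor
    · push_cast at h7; linarith
    · linarith

end Pool.Agent.CircleShift

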