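import Pool.Agent.Work.MP_0fc146_gt_helper2.Inj

/-!
# Block InjV of MP_0fc146_gt: injectivity of the circle
-/

noncomputable section

open scoped Topology
open Filter

namespace Pool.Agent.CircleShift



theorem stmt_InjV (hR : Stmt_Role) (hI : Stmt_Inj) (hRho : Stmt_Rho) : Stmt_InjV := by
  have hl := lam_pos
  have hw : 0 < wid 0 0 := (SubAux.wid_bounds 0 0).1
  have hpi : ∀ (n : ℕ) (g : G), (uAut⁻¹ ^ n) ((uAut ^ n) g) = g := by
    intro n g
    rw [← MulAut.mul_apply, inv_pow, inv_mul_cancel]; rfl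
  have hz : (0 : ℝ) ∈ K 0 := mem_of_mem_nhds K0_nhds
  -- the relation of `HH` and `u`
  have hHu : ∀ g, HH (uAut⁻¹ g) = lam * HH g := by
    intro g
    obtain ⟨r1, r2, _, _⟩ := hRho
    unfold HH
    have h1 : rhoAut (uAut⁻¹ g) = uAut (rhoAut g) := by
      have h2 : rhoAut * uAut⁻¹ = uAut * rhoAut := by
        rw [← r2, ← mul_assoc, ← mul_assoc, r1, one_mul]
      have h3 := congrArg (fun f : MulAut G => f g) h2
      simpa [MulAut.mul_apply] using h3
    rw [h1]
    have h4 := V0_div hR hz (uAut (rhoAut g))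
    rw [zero_div, MulAut.inv_apply_self] at h4
    exact h4.symm
  have p1 : ∀ s, ∃ g, VV s g ≠ 0 := by
    intro s
    obtain ⟨n, hn⟩ := exists_K0 s
    refine ⟨(uAut ^ n) (FreeGroup.of 0), ?_⟩
    rw [VV_eq hR (interior_subset hn), hpi, (hI _ (interior_subset hn)).1]
    exact (mul_pos (pow_pos hl n) hw).ne'
  have p2 : HH (rhoAut⁻¹ (FreeGroup.of 0)) ≠ 0 := by
    unfold HH
    rw [MulAut.apply_inv_self, (hI 0 hz).1]
    exact hw.ne'
  have p3 : ∀ s s' r : ℝ, 0 < r → (∀ g, VV s' g = r * VV s g) → s = s' := by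
    intro s s' r hr h
    obtain ⟨n, hn⟩ := exists_K0 s
    obtain ⟨n', hn'⟩ := exists_K0 s'
    have k1 : s / lam ^ (n + n') ∈ K 0 := K0_div_pow (interior_subset hn) n'
    have k2 : s' / lam ^ (n + n') ∈ K 0 := by
      rw [add_comm]; exact K0_div_pow (interior_subset hn') n
    have hpp := pow_pos hl (n + n')
    have h3 : ∀ g, V 0 (s' / lam ^ (n + n')) g = r * V 0 (s / lam ^ (n + n')) g := by
      intro g
      have h4 := h ((uAut ^ (n + n')) g)
      rw [VV_eq hR k1, VV_eq hR k2, hpi] at h4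
      have h5 : lam ^ (n + n') * V 0 (s' / lam ^ (n + n')) g =
          lam ^ (n + n') * (r * V 0 (s / lam ^ (n + n')) g) := by rw [h4]; ring
      exact mul_left_cancel₀ hpp.ne' h5
    have h6 := h3 (FreeGroup.of 0)
    rw [(hI _ k1).1, (hI _ k2).1] at h6
    have hr1 : r = 1 := by
      have : (r - 1) * wid 0 0 = 0 := by linarith
      rcases mul_eq_zero.1 this with h7 | h7
      · linarith
      · exact absurd h7 hw.ne'
    have h8 := h3 (FreeGroup.of 1 * (posG [0, 1, 2, 3] * (posG [3, 1, 0, 2])⁻¹))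
    rw [(hI _ k1).2, (hI _ k2).2, hr1] at h8
    have h9 : s / lam ^ (n + n') = s' / lam ^ (n + n') := by linarith
    exact (div_left_inj' hpp.ne').1 h9
  refine ⟨p1, ⟨_, p2⟩, p3, ?_⟩
  intro s r hr h
  -- first `s = 0`
  have h1 : ∀ g, VV (lam * s) g = lam ^ 2 * VV s g := by
    intro g
    rw [VV_lam hR]
    have h2 := h (uAut⁻¹ g)
    rw [hHu, h g] at h2
    have h3 : r * VV s (uAut⁻¹ g) = r * (lam * VV s g) := by rw [← h2]; ring
    rw [mul_left_cancel₀ hr.ne' h3]
    ring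
  have h2 := p3 s (lam * s) (lam ^ 2) (by positivity) h1
  have hs : s = 0 := by
    have h3 : (lam - 1) * s = 0 := by linarith
    rcases mul_eq_zero.1 h3 with h4 | h4
    · linarith [one_lt_lam]
    · exact h4
  subst hs
  have h3 := h1 (rhoAut⁻¹ (FreeGroup.of 0))
  rw [mul_zero] at h3
  have h4 := h (rhoAut⁻¹ (FreeGroup.of 0))
  have h5 : (lam ^ 2 - 1) * VV 0 (rhoAut⁻¹ (FreeGroup.of 0)) = 0 := by linarith
  have h6 : lam ^ 2 - 1 ≠ 0 := by
    have := one_lt_lam
    nlinarith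
  rcases mul_eq_zero.1 h5 with h7 | h7
  · exact h6 h7
  · rw [h7, mul_zero] at h4
    exact p2 h4

end Pool.Agent.CircleShift

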