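import Pool.Agent.Work.MP_0fc146_gt_98.Line
import Mathlib.Topology.Compactification.OnePoint.Sphere

/-!
# Block CIRCLE of MP_0fc146_gt: continuity at infinity, and the circle
-/

noncomputable section

open scoped Topology
open Filter

namespace Pool.Agent.CircleShift

namespace CircAux

theorem mk_cont : Continuous PLen.mk := continuous_quotient_mk'

/-- A cone: invariant under positive factors. -/
def Sat (A : Set (G → ℝ)) : Prop := ∀ f ∈ A, ∀ r : ℝ, 0 < r → r • f ∈ A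

theorem mk_eq_iff {f g : G → ℝ} : PLen.mk f = PLen.mk g ↔ ∃ r : ℝ, 0 < r ∧ g = r • f :=
  ⟨fun h => Quotient.exact h, fun h => Quotient.sound h⟩

theorem open_image {A : Set (G → ℝ)} (hA : IsOpen A) (hs : Sat A) : IsOpen (PLen.mk '' A) := by
  have h : PLen.mk ⁻¹' (PLen.mk '' A) = A := by
    ext f
    constructor
    · rintro ⟨g, hg, hgf⟩
      obtain ⟨r, hr, rfl⟩ := mk_eq_iff.1 hgf
      exact hs g hg r hr
    · intro hf
      exact ⟨f, hf, rfl⟩
  have h2 : IsOpen (PLen.mk ⁻¹' (PLen.mk '' A)) := by rw [h]; exact hA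
  exact isOpen_coinduced.2 h2

theorem disj_image {A B : Set (G → ℝ)} (hs : Sat A) (h : Disjoint A B) :
    Disjoint (PLen.mk '' A) (PLen.mk '' B) := by
  rw [Set.disjoint_left]
  rintro _ ⟨f, hf, rfl⟩ ⟨g, hg, hgf⟩
  obtain ⟨r, hr, rfl⟩ := mk_eq_iff.1 hgf.symm
  exact (Set.disjoint_left.1 h) (hs f hf r hr) hg

/-- Separation by the sign of a quadratic expression. -/
theorem sep1 {f h : G → ℝ} {g g₁ : G} (hp : 0 < f g * h g)
    (hlt : f g₁ / f g < h g₁ / h g) :
    ∃ A B : Set (G → ℝ), IsOpen A ∧ IsOpen B ∧ Sat A ∧ Sat B ∧ f ∈ A ∧ h ∈ B ∧ Disjoint A B := by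
  obtain ⟨c, hc1, hc2⟩ := exists_between hlt
  have hf0 : f g ≠ 0 := by
    intro h0; rw [h0, zero_mul] at hp; exact lt_irrefl _ hp
  have hh0 : h g ≠ 0 := by
    intro h0; rw [h0, mul_zero] at hp; exact lt_irrefl _ hp
  refine ⟨{k | 0 < k g * f g ∧ k g₁ * f g < c * (k g * f g)},
    {k | 0 < k g * f g ∧ c * (k g * f g) < k g₁ * f g}, ?_, ?_, ?_, ?_, ?_, ?_, ?_⟩
  · apply IsOpen.and
    · exact isOpen_lt continuous_const (by fun_prop)
    · exact isOpen_lt (by fun_prop) (by fun_prop)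
  · apply IsOpen.and
    · exact isOpen_lt continuous_const (by fun_prop)
    · exact isOpen_lt (by fun_prop) (by fun_prop)
  · rintro k ⟨h1, h2⟩ r hr
    refine ⟨?_, ?_⟩
    · show 0 < r * k g * f g
      rw [mul_assoc]; exact mul_pos hr h1
    · show r * k g₁ * f g < c * (r * k g * f g)
      have := mul_lt_mul_of_pos_left h2 hr
      linarith
  · rintro k ⟨h1, h2⟩ r hr
    refine ⟨?_, ?_⟩
    · show 0 < r * k g * f g
      rw [mul_assoc]; exact mul_pos hr h1
    · show c * (r * k g * f g) < r * k g₁ * f g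
      have := mul_lt_mul_of_pos_left h2 hr
      linarith
  · refine ⟨mul_self_pos.2 hf0, ?_⟩
    have h1 : f g₁ * f g = f g₁ / f g * (f g * f g) := by field_simp
    rw [h1]
    exact mul_lt_mul_of_pos_right hc1 (mul_self_pos.2 hf0)
  · have h2 : 0 < h g * f g := by rw [mul_comm]; exact hp
    refine ⟨h2, ?_⟩
    have h1 : h g₁ * f g = h g₁ / h g * (h g * f g) := by field_simp
    rw [h1]
    exact mul_lt_mul_of_pos_right hc2 h2
  · rw [Set.disjoint_left]
    rintro k ⟨_, h1⟩ ⟨_, h2⟩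
    linarith

theorem sep {f h : G → ℝ} (hf : ∃ g, f g ≠ 0) (hh : ∃ g, h g ≠ 0)
    (hne : ∀ r : ℝ, 0 < r → h ≠ r • f) :
    ∃ A B : Set (G → ℝ), IsOpen A ∧ IsOpen B ∧ Sat A ∧ Sat B ∧ f ∈ A ∧ h ∈ B ∧ Disjoint A B := by
  by_cases hc : ∃ g, f g ≠ 0 ∧ h g ≠ 0
  · obtain ⟨g, hf0, hh0⟩ := hc
    rcases lt_or_gt_of_ne (mul_ne_zero hf0 hh0) with hneg | hpos
    · refine ⟨{k | 0 < k g * f g}, {k | 0 < k g * h g}, ?_, ?_, ?_, ?_, ?_, ?_, ?_⟩
      · exact isOpen_lt continuous_const (by fun_prop)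
      · exact isOpen_lt continuous_const (by fun_prop)
      · intro k hk r hr
        show 0 < r * k g * f g
        rw [mul_assoc]; exact mul_pos hr hk
      · intro k hk r hr
        show 0 < r * k g * h g
        rw [mul_assoc]; exact mul_pos hr hk
      · exact mul_self_pos.2 hf0
      · exact mul_self_pos.2 hh0
      · rw [Set.disjoint_left]
        intro k h1 h2
        have h3 : 0 < (k g * f g) * (k g * h g) := mul_pos h1 h2
        have h4 : (k g * f g) * (k g * h g) = (k g * k g) * (f g * h g) := by ring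
        rw [h4] at h3
        have h5 := mul_self_nonneg (k g)
        nlinarith
    · have hr : 0 < h g / f g := by
        have : h g / f g = f g * h g / (f g * f g) := by field_simp
        rw [this]; exact div_pos hpos (mul_self_pos.2 hf0)
      have h1 := hne (h g / f g) hr
      obtain ⟨g₁, hg₁⟩ : ∃ g₁, h g₁ ≠ (h g / f g) * f g₁ := by
        by_contra hcon
        push Not at hcon
        exact h1 (funext hcon)
      have h2 : f g₁ / f g ≠ h g₁ / h g := by
        intro heq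
        apply hg₁
        field_simp at heq ⊢
        linarith
      rcases lt_or_gt_of_ne h2 with h3 | h3
      · exact sep1 hpos h3
      · obtain ⟨A, B, a1, a2, a3, a4, a5, a6, a7⟩ := sep1 (f := h) (h := f) (g := g) (g₁ := g₁)
          (by rw [mul_comm]; exact hpos) h3
        exact ⟨B, A, a2, a1, a4, a3, a6, a5, a7.symm⟩
  · push Not at hc
    obtain ⟨g, hg⟩ := hf
    obtain ⟨g₁, hg₁⟩ := hh
    have h1 : h g = 0 := hc g hg
    have h2 : f g₁ = 0 := by
      by_contra h3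
      exact hg₁ (hc g₁ h3)
    refine ⟨{k | |k g₁| < |k g|}, {k | |k g| < |k g₁|}, ?_, ?_, ?_, ?_, ?_, ?_, ?_⟩
    · exact isOpen_lt (by fun_prop) (by fun_prop)
    · exact isOpen_lt (by fun_prop) (by fun_prop)
    · intro k hk r hr
      show |r * k g₁| < |r * k g|
      rw [abs_mul, abs_mul]
      exact mul_lt_mul_of_pos_left hk (abs_pos.2 hr.ne')
    · intro k hk r hr
      show |r * k g| < |r * k g₁|
      rw [abs_mul, abs_mul]
      exact mul_lt_mul_of_pos_left hk (abs_pos.2 hr.ne')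
    · show |f g₁| < |f g|
      rw [h2, abs_zero]; exact abs_pos.2 hg
    · show |h g| < |h g₁|
      rw [h1, abs_zero]; exact abs_pos.2 hg₁
    · rw [Set.disjoint_left]
      intro k h1 h2
      exact lt_asymm (show |k g₁| < |k g| from h1) (show |k g| < |k g₁| from h2)

/-- Sets of nonzero classes are Hausdorff. -/
theorem t2_of_nonzero (R : Set PLen) (hR : ∀ x ∈ R, ∃ f : G → ℝ, x = PLen.mk f ∧ ∃ g, f g ≠ 0) :
    T2Space R := by
  refine ⟨?_⟩
  rintro ⟨x, hx⟩ ⟨y, hy⟩ hne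
  obtain ⟨f, rfl, hf⟩ := hR x hx
  obtain ⟨h, rfl, hh⟩ := hR y hy
  have hne' : PLen.mk f ≠ PLen.mk h := fun he => hne (Subtype.ext he)
  obtain ⟨A, B, a1, a2, a3, a4, a5, a6, a7⟩ := sep hf hh
    (fun r hr he => hne' (mk_eq_iff.2 ⟨r, hr, he⟩))
  refine ⟨Subtype.val ⁻¹' (PLen.mk '' A), Subtype.val ⁻¹' (PLen.mk '' B),
    (open_image a1 a3).preimage continuous_subtype_val,
    (open_image a2 a4).preimage continuous_subtype_val, ⟨f, a5, rfl⟩, ⟨h, a6, rfl⟩, ?_⟩
  exact (disj_image a3 a7).preimage _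

/-- The circle as a one point compactification. -/
theorem circHomeo : Nonempty (OnePoint ℝ ≃ₜ Circle) := by
  have hv₀ : (1 : ℂ) ≠ 0 := one_ne_zero
  have hV : Module.finrank ℝ ℝ = Module.finrank ℝ (Submodule.span ℝ {(1 : ℂ)})ᗮ := by
    have : Fact (Module.finrank ℝ ℂ = 1 + 1) := ⟨Complex.finrank_real_complex⟩
    rw [Submodule.finrank_orthogonal_span_singleton (n := 1) hv₀]
    simp
  let e : ℝ ≃ₜ (Submodule.span ℝ {(1 : ℂ)})ᗮ :=
    (FiniteDimensional.nonempty_continuousLinearEquiv_of_finrank_eq hV).some.toHomeomorph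
  let f : OnePoint ℝ ≃ₜ Metric.sphere (0 : ℂ) 1 :=
    e.onePointCongr.trans (onePointHyperplaneHomeoUnitSphere (E := ℂ) (v := 1) (by simp))
  exact ⟨f⟩

/-- The scaled functions near infinity. -/
theorem exists_scale {Q β c₁ : ℝ} (h : ∀ s : ℝ, 1 / 4 / lam ^ 2 ≤ |s| → |s| ≤ 1 / lam ^ 2 →
      ∃ b, c₁ ≤ b ∧ b ≤ c₁⁻¹ ∧ ∀ (m : ℕ) (g : G),
        |VV (lam ^ m * s) g / lam ^ (2 * m) - b * HH g| ≤ Q * (g.norm + 1) * β ^ m)
    (t : ℝ) (ht : 1 ≤ |t|) : ∃ (m : ℕ) (b : ℝ), c₁ ≤ b ∧ |t| ≤ lam ^ m ∧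
      ∀ g, |VV t g / lam ^ (2 * m) - b * HH g| ≤ Q * (g.norm + 1) * β ^ m := by
  have hl := lam_pos
  have h1 : ∃ n : ℕ, |t| ≤ lam ^ n := by
    obtain ⟨n, hn⟩ := pow_unbounded_of_one_lt |t| one_lt_lam
    exact ⟨n, hn.le⟩
  classical
  set n := Nat.find h1 with hn
  have hn1 : |t| ≤ lam ^ n := Nat.find_spec h1
  -- lam ^ (n-1) < |t| or n = 0
  have hn2 : lam ^ n ≤ 4 * |t| := by
    rcases Nat.eq_zero_or_pos n with h0 | h0
    · rw [h0, pow_zero]; linarith
    · have h3 := Nat.find_min h1 (m := n - 1) (by omega)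
      push Not at h3
      have h4 : lam ^ n = lam ^ (n - 1) * lam := by
        rw [← pow_succ]; congr 1; omega
      rw [h4]
      have h5 := lam_lt
      have h6 : 0 < lam ^ (n - 1) := by positivity
      nlinarith [abs_nonneg t]
  have hp : 0 < lam ^ (n + 2) := by positivity
  have e1 : |t / lam ^ (n + 2)| = |t| / lam ^ (n + 2) := by
    rw [abs_div, abs_of_pos hp]
  obtain ⟨b, b1, _, b3⟩ := h (t / lam ^ (n + 2)) (by
    rw [e1, div_div, div_le_div_iff₀ (by positivity) hp]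
    rw [pow_add]
    nlinarith [pow_pos hl 2]) (by
    rw [e1, div_le_div_iff₀ hp (by positivity), pow_add]
    nlinarith [pow_pos hl 2])
  refine ⟨n + 2, b, b1, ?_, ?_⟩
  · have : lam ^ n ≤ lam ^ (n + 2) := pow_le_pow_right₀ one_lt_lam.le (by omega)
    linarith
  · intro g
    have h5 := b3 (n + 2) g
    rw [mul_div_cancel₀ t hp.ne'] at h5
    exact h5

end CircAux

open CircAux in
theorem stmt_Circle (hC : Stmt_Cont) (hI : Stmt_InjV) (hL : Stmt_L3) : Stmt_Circle := by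
  classical
  obtain ⟨i1, i2, i3, i4⟩ := hI
  obtain ⟨Q, β, c₁, hQ, hβ, hβ1, hc₁, hL⟩ := hL
  have hl := lam_pos
  let vs : ℝ → G → ℝ := fun s g => VV s (thA g)
  let vh : G → ℝ := fun g => HH (thA g)
  let Φ : OnePoint ℝ → PLen := fun x => OnePoint.elim x (PLen.mk vh) (fun s => PLen.mk (vs s))
  have hsurj : ∀ g : G, thA (thA⁻¹ g) = g := fun g => MulAut.apply_inv_self G thA g
  -- continuity on the line
  have hvs : Continuous vs := continuous_pi (fun g => hC (thA g))
  have hc1 : Continuous (fun s : ℝ => PLen.mk (vs s)) := mk_cont.comp hvs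
  -- continuity at infinity
  have hex : ∀ t : ℝ, ∃ (m : ℕ) (b : ℝ), 1 ≤ |t| → c₁ ≤ b ∧ |t| ≤ lam ^ m ∧
      ∀ g, |VV t g / lam ^ (2 * m) - b * HH g| ≤ Q * (g.norm + 1) * β ^ m := by
    intro t
    by_cases ht : 1 ≤ |t|
    · obtain ⟨m, b, h1, h2, h3⟩ := exists_scale hL t ht
      exact ⟨m, b, fun _ => ⟨h1, h2, h3⟩⟩
    · exact ⟨0, 0, fun h => absurd h ht⟩
  choose m b hmb using hex
  have hev : ∀ᶠ t : ℝ in cocompact ℝ, 1 ≤ |t| :=
    tendsto_norm_cocompact_atTop.eventually_ge_atTop 1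
  have hm : Tendsto m (cocompact ℝ) atTop := by
    rw [tendsto_atTop]
    intro M
    have h1 : ∀ᶠ t : ℝ in cocompact ℝ, lam ^ M ≤ |t| :=
      tendsto_norm_cocompact_atTop.eventually_ge_atTop _
    filter_upwards [h1, hev] with t ht1 ht2
    by_contra hcon
    push Not at hcon
    have h2 := (hmb t ht2).2.1
    have h3 : lam ^ (m t) < lam ^ M := pow_lt_pow_right₀ one_lt_lam hcon
    linarith
  have hlim : Tendsto (fun t : ℝ => ((b t)⁻¹ * (lam ^ (2 * m t))⁻¹) • vs t) (cocompact ℝ)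
      (𝓝 vh) := by
    rw [tendsto_pi_nhds]
    intro g
    rw [tendsto_iff_norm_sub_tendsto_zero]
    have hb0 : Tendsto (fun t : ℝ => Q * ((thA g).norm + 1) / c₁ * β ^ (m t)) (cocompact ℝ)
        (𝓝 0) := by
      have h1 := (tendsto_pow_atTop_nhds_zero_of_lt_one hβ.le hβ1).comp hm
      have h2 := h1.const_mul (Q * ((thA g).norm + 1) / c₁)
      rw [mul_zero] at h2
      exact h2
    refine squeeze_zero' (Eventually.of_forall fun t => norm_nonneg _) ?_ hb0
    filter_upwards [hev] with t ht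
    obtain ⟨h1, _, h3⟩ := hmb t ht
    have hbp : 0 < b t := lt_of_lt_of_le hc₁ h1
    have h4 := h3 (thA g)
    have h5 : (((b t)⁻¹ * (lam ^ (2 * m t))⁻¹) • vs t) g - vh g =
        (VV t (thA g) / lam ^ (2 * m t) - b t * HH (thA g)) / b t := by
      show (b t)⁻¹ * (lam ^ (2 * m t))⁻¹ * VV t (thA g) - HH (thA g) = _
      field_simp
    rw [h5, Real.norm_eq_abs, abs_div, abs_of_pos hbp]
    calc |VV t (thA g) / lam ^ (2 * m t) - b t * HH (thA g)| / b t
        ≤ (Q * ((thA g).norm + 1) * β ^ (m t)) / b t := div_le_div_of_nonneg_right h4 hbp.le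
      _ ≤ (Q * ((thA g).norm + 1) * β ^ (m t)) / c₁ :=
          div_le_div_of_nonneg_left (by positivity) hc₁ h1
      _ = _ := by ring
  have hc2 : Tendsto (fun s : ℝ => PLen.mk (vs s)) (cocompact ℝ) (𝓝 (PLen.mk vh)) := by
    have h1 : Tendsto (fun t : ℝ => PLen.mk (((b t)⁻¹ * (lam ^ (2 * m t))⁻¹) • vs t))
        (cocompact ℝ) (𝓝 (PLen.mk vh)) := (mk_cont.tendsto vh).comp hlim
    refine h1.congr' ?_
    filter_upwards [hev] with t ht
    have hbp : 0 < b t := lt_of_lt_of_le hc₁ (hmb t ht).1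
    symm
    exact mk_eq_iff.2 ⟨(b t)⁻¹ * (lam ^ (2 * m t))⁻¹, by positivity, rfl⟩
  have hΦ : Continuous Φ := by
    rw [OnePoint.continuous_iff]
    refine ⟨?_, hc1⟩
    rw [coclosedCompact_eq_cocompact]
    exact hc2
  -- injectivity
  have hinj : Function.Injective Φ := by
    intro x y hxy
    induction x using OnePoint.rec with
    | infty =>
      induction y using OnePoint.rec with
      | infty => rfl
      | coe s =>
        exfalso
        have h1 : PLen.mk (vs s) = PLen.mk vh := hxy.symm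
        obtain ⟨r, hr, h2⟩ := mk_eq_iff.1 h1
        refine i4 s r hr (fun g => ?_)
        have h3 := congrFun h2 (thA⁻¹ g)
        have h4 : HH (thA (thA⁻¹ g)) = r * VV s (thA (thA⁻¹ g)) := h3
        rwa [hsurj] at h4
    | coe s =>
      induction y using OnePoint.rec with
      | infty =>
        exfalso
        have h1 : PLen.mk (vs s) = PLen.mk vh := hxy
        obtain ⟨r, hr, h2⟩ := mk_eq_iff.1 h1
        refine i4 s r hr (fun g => ?_)
        have h3 := congrFun h2 (thA⁻¹ g)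
        have h4 : HH (thA (thA⁻¹ g)) = r * VV s (thA (thA⁻¹ g)) := h3
        rwa [hsurj] at h4
      | coe s' =>
        have h1 : PLen.mk (vs s) = PLen.mk (vs s') := hxy
        obtain ⟨r, hr, h2⟩ := mk_eq_iff.1 h1
        have h5 : s = s' := by
          refine i3 s s' r hr (fun g => ?_)
          have h3 := congrFun h2 (thA⁻¹ g)
          have h4 : VV s' (thA (thA⁻¹ g)) = r * VV s (thA (thA⁻¹ g)) := h3
          rwa [hsurj] at h4
        rw [h5]
  -- the range
  have hrange : Set.range Φ = {PLen.mk vh} ∪ Set.range (fun s => PLen.mk (vs s)) := by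
    ext x
    constructor
    · rintro ⟨y, rfl⟩
      induction y using OnePoint.rec with
      | infty => exact Or.inl rfl
      | coe s => exact Or.inr ⟨s, rfl⟩
    · rintro (h | ⟨s, rfl⟩)
      · exact ⟨OnePoint.infty, h.symm⟩
      · exact ⟨(s : OnePoint ℝ), rfl⟩
  have hT2 : T2Space (Set.range Φ) := by
    apply t2_of_nonzero
    rw [hrange]
    rintro x (h | ⟨s, rfl⟩)
    · obtain ⟨g, hg⟩ := i2
      exact ⟨vh, h, thA⁻¹ g, by show HH (thA (thA⁻¹ g)) ≠ 0; rwa [hsurj]⟩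
    · obtain ⟨g, hg⟩ := i1 s
      exact ⟨vs s, rfl, thA⁻¹ g, by show VV s (thA (thA⁻¹ g)) ≠ 0; rwa [hsurj]⟩
  have hcomp : IsCompact (Set.range Φ) := isCompact_range hΦ
  let e : OnePoint ℝ ≃ Set.range Φ := Equiv.ofInjective Φ hinj
  have he : Continuous e := hΦ.subtype_mk _
  let eh : OnePoint ℝ ≃ₜ Set.range Φ := Continuous.homeoOfEquivCompactToT2 (f := e) he
  have hfin : Nonempty (Set.range Φ ≃ₜ Circle) := ⟨eh.symm.trans circHomeo.some⟩
  rw [hrange] at hcomp hfin
  exact ⟨hcomp, hfin⟩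

end Pool.Agent.CircleShift

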